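import Pool.Agent.H912.AE.Drm

/-!
# The truncated counting function on integral points of root stacks

Let `X ⊂ ℙ^n` be a closed set over `ℚ`, given by an arbitrary set `S` of forms.  An integral point
over the ring of integers of a number field `L` of the `m`-th root stack of `X` along the
coordinate hyperplanes is a point `y ∈ X(L)` whose intersection multiplicities with the coordinate
hyperplanes are divisible by `m` at all primes: the fractional ideals `(y_i / y_j)` are `m`-th
powers.  Let `D_I`, for a set `I` of indices, be the divisor given by the hyperplanes `x_i = 0`,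
`i ∈ I`.  We prove, for all `m` outside a set of natural density zero, the lower bound
`N^(1)(D_I, y) ≥ C` for the truncated counting function at all such points over all number fields
of degree at most `d`, with an arbitrary constant `C`, unless a Hadamard power `X^(e)`, `e ≤ d`,
contains a point outside of `D_I` whose coordinates are `0`, `1` and `-1`.
-/

set_option autoImplicit false

open Filter Topology NumberField nonZeroDivisors IsDedekindDomain

namespace Pool.Agent.Results.MP_a41896_nt.RootStackCounting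

/-- `y` is a vector of homogeneous coordinates of a point over `L` of the set `X ⊂ ℙ^n` of the
common zeros of the forms in `S`. -/
def IsPoint {L : Type} [Field L] [Algebra ℚ L] {n : ℕ}
    (S : Set (MvPolynomial (Fin (n + 1)) ℚ)) (y : Fin (n + 1) → L) : Prop :=
  y ≠ 0 ∧ ∀ F ∈ S, MvPolynomial.aeval y F = 0

/-- The point `y` lifts to an `𝓞_L`-point of the `m`-th root stack along the coordinate
hyperplanes: the fractional ideals `(y_i / y_j)` are `m`-th powers of fractional ideals, for all
`i`, `j` with `y_i ≠ 0` and `y_j ≠ 0`. -/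
def IsIntegral {L : Type} [Field L] [NumberField L] {n : ℕ} (m : ℕ) (y : Fin (n + 1) → L) : Prop :=
  ∀ i j, y i ≠ 0 → y j ≠ 0 → ∃ J : FractionalIdeal (𝓞 L)⁰ L,
    FractionalIdeal.spanSingleton (𝓞 L)⁰ (y i / y j) = J ^ m

/-- The point `y` meets the divisor `D_I` at the prime `p` of `L`: for some `i ∈ I` the `i`-th
coordinate, in coordinates which are integral and not all divisible by `p`, is divisible by `p`.
The truncated counting function `N^(1)(D_I, y)` is the sum of `log (absNorm p)` over these `p`. -/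
def Meets {L : Type} [Field L] [NumberField L] {n : ℕ} (I : Set (Fin (n + 1)))
    (y : Fin (n + 1) → L) (p : HeightOneSpectrum (𝓞 L)) : Prop :=
  ∃ i ∈ I, ∃ j, p.valuation L (y i) < p.valuation L (y j)

/-- The forms with coefficients in `ℚ` which vanish at the coordinatewise product of any `e` zeros
of `S`, over any field containing `ℚ`: the equations of the Hadamard power `X^(e)`, the Zariski
closure of the set of coordinatewise products of `e` points of `X`. -/
def Had {n : ℕ} (S : Set (MvPolynomial (Fin (n + 1)) ℚ)) (e : ℕ) :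
    Set (MvPolynomial (Fin (n + 1)) ℚ) :=
  {G | (∃ d, G.IsHomogeneous d) ∧ ∀ (L : Type) [Field L] [Algebra ℚ L]
    (z : Fin e → Fin (n + 1) → L), (∀ j, ∀ F ∈ S, MvPolynomial.aeval (z j) F = 0) →
      MvPolynomial.aeval (fun i => ∏ j, z j i) G = 0}

/-- All coordinates of `η` are `0`, `1` or `-1`. -/
def IsTrivial {n : ℕ} (η : Fin (n + 1) → ℚ) : Prop := ∀ i, η i = 0 ∨ η i = 1 ∨ η i = -1

/-- The set `A` of positive integers has natural density `δ`. -/
def HasDensity (A : Set ℕ) (δ : ℝ) : Prop :=
  Tendsto (fun N : ℕ => ((A ∩ Set.Icc 1 N).ncard : ℝ) / N) atTop (𝓝 δ)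

open Pool.Agent.H912.AE in
/-- the argument at one witness prime -/
lemma at_prime {n : ℕ} (S : Set (MvPolynomial (Fin (n + 1)) ℚ)) (I : Set (Fin (n + 1)))
    {L : Type} [Field L] [NumberField L] {m q : ℕ} (hm1 : 1 ≤ m)
    (y : Fin (n + 1) → L) (hy : IsPoint S y) (hyD : IsIntegral m y)
    (hW : ∀ s : Fin (n + 1) → Bool, WitK 2 ((tw s) '' (Had S (Module.finrank ℚ L))) m q)
    (hI : ∀ p : HeightOneSpectrum (𝓞 L), ((q : ℕ) : 𝓞 L) ∈ p.asIdeal → ¬ Meets I y p) :
    ∃ η : Fin (n + 1) → ℚ, IsTrivial η ∧ IsPoint (Had S (Module.finrank ℚ L)) η ∧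
      (∀ i ∈ I, η i ≠ 0) ∧ ∀ i, y i = 0 → η i = 0 := by
  classical
  obtain ⟨i₀, hi₀⟩ := Function.ne_iff.1 hy.1
  simp only [Pi.zero_apply] at hi₀
  -- the norms are powers up to sign
  have hpow : ∀ i, ∃ (s : Bool) (t : ℚ), Algebra.norm ℚ (y i / y i₀) =
      (if s then (1 : ℚ) else -1) * t ^ m ∧ (y i = 0 → t = 0) ∧ (t = 0 → y i = 0) := by
    intro i
    by_cases h0 : y i = 0
    · refine ⟨true, 0, ?_, fun _ => rfl, fun _ => h0⟩
      rw [h0, zero_div, Algebra.norm_zero, zero_pow (by omega), mul_zero]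
    · obtain ⟨J, hJ⟩ := hyD i i₀ h0 hi₀
      have h1 := congrArg FractionalIdeal.absNorm hJ
      rw [FractionalIdeal.absNorm_span_singleton, map_pow] at h1
      have hne : y i / y i₀ ≠ 0 := div_ne_zero h0 hi₀
      have hN : Algebra.norm ℚ (y i / y i₀) ≠ 0 := Algebra.norm_ne_zero_iff.2 hne
      refine ⟨decide (0 ≤ Algebra.norm ℚ (y i / y i₀)), FractionalIdeal.absNorm J, ?_,
        fun h => absurd h h0, fun h => ?_⟩
      · by_cases h2 : 0 ≤ Algebra.norm ℚ (y i / y i₀)
        · rw [abs_of_nonneg h2] at h1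
          simp only [h2, decide_true, if_true, one_mul]
          exact h1
        · rw [abs_of_neg (not_le.1 h2)] at h1
          simp only [h2, decide_false, Bool.false_eq_true, if_false]
          rw [← h1]
          ring
      · rw [h, zero_pow (by omega), abs_eq_zero] at h1
        exact absurd h1 hN
  choose s t hst ht0 ht1 using hpow
  obtain ⟨hqp, ⟨φ⟩, hφ⟩ := hW s
  have hφc : ∀ r : ℚ, φ r = (r : ℚ_[q]) := fun r => by
    rw [eq_ratCast]
  have ht : (fun i => φ (t i)) ≠ 0 := by
    intro h
    have h1 := congrFun h i₀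
    simp only [Pi.zero_apply, map_eq_zero] at h1
    exact hi₀ (ht1 i₀ h1)
  obtain ⟨η, h1, h2, h3⟩ := hφ φ (fun i => φ (t i)) ht (by
    rintro _ ⟨G, hG, rfl⟩
    rw [eval₂_tw]
    have h4 : (fun i => φ (sg s i) * φ (t i) ^ m) =
        fun i => φ (Algebra.norm ℚ (y i / y i₀)) := by
      funext i
      rw [hst i, map_mul, map_pow]
      rfl
    rw [h4]
    have h5 := norm_had S hy.2 hG.2
    obtain ⟨d, hd⟩ := hG.1
    have h6 : (fun i => Algebra.norm ℚ (y i / y i₀)) =
        fun i => (Algebra.norm ℚ (y i₀))⁻¹ * Algebra.norm ℚ (y i) := by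
      funext i
      have h7 : Algebra.norm ℚ (y i) =
          Algebra.norm ℚ (y i / y i₀) * Algebra.norm ℚ (y i₀) := by
        rw [← map_mul, div_mul_cancel₀ _ hi₀]
      have h8 : Algebra.norm ℚ (y i₀) ≠ 0 := Algebra.norm_ne_zero_iff.2 hi₀
      rw [h7]
      field_simp
    have h7 : MvPolynomial.eval₂ (RingHom.id ℚ) (fun i => Algebra.norm ℚ (y i / y i₀)) G = 0 := by
      rw [h6, eval₂_smul_hom (RingHom.id ℚ) hd]
      have h8 : MvPolynomial.eval₂ (RingHom.id ℚ) (fun i => Algebra.norm ℚ (y i)) G = 0 := h5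
      rw [h8, mul_zero]
    have h8 := congrArg φ h7
    rw [map_zero, MvPolynomial.hom_eval₂, RingHomCompTriple.comp_eq] at h8
    exact h8)
  have hη : ∀ i, η i = 0 ∨ η i = 1 ∨ η i = -1 := by
    intro i
    rcases h1 i with h | h
    · exact Or.inl h
    · have h' : (η i - 1) * (η i + 1) = 0 := by linear_combination h
      rcases mul_eq_zero.1 h' with h' | h'
      · exact Or.inr (Or.inl (by linear_combination h'))
      · exact Or.inr (Or.inr (by linear_combination h'))
  have hηm : ∀ i, η i ^ m = 0 ∨ η i ^ m = 1 ∨ η i ^ m = -1 := by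
    intro i
    rcases hη i with h | h | h
    · left
      rw [h, zero_pow (by omega)]
    · right; left
      rw [h, one_pow]
    · right
      rw [h]
      exact neg_one_pow_eq_or ℚ m
  obtain ⟨i₁, hi₁⟩ := Finite.exists_max (fun i => ‖φ (t i)‖)
  -- the coordinates in `I` are units at `q`
  have hIη : ∀ i ∈ I, η i ≠ 0 := by
    intro i hi
    -- a prime above `q`
    obtain ⟨M, hM, hMq⟩ := Ideal.exists_isMaximal_dvd_of_dvd_absNorm (S := 𝓞 L)
      (Nat.prime_iff_prime_int.1 hqp.out) (Ideal.span {((q : ℕ) : 𝓞 L)}) (by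
        rw [Ideal.absNorm_span_singleton]
        have h4 := Algebra.norm_algebraMap (S := 𝓞 L) ((q : ℕ) : ℤ)
        have h5 : algebraMap ℤ (𝓞 L) ((q : ℕ) : ℤ) = ((q : ℕ) : 𝓞 L) := by simp
        rw [h5] at h4
        rw [h4, Int.dvd_natAbs]
        exact dvd_pow_self _ (Module.finrank_pos (R := ℤ) (M := 𝓞 L)).ne')
    have hqM : ((q : ℕ) : 𝓞 L) ∈ M := by
      have h5 : ((q : ℕ) : ℤ) ∈ M.under ℤ := by
        rw [hMq.1]
        exact Ideal.mem_span_singleton_self _
      rw [Ideal.mem_comap] at h5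
      simpa using h5
    have hM0 : M ≠ ⊥ := by
      intro h
      rw [h, Ideal.mem_bot] at hqM
      exact hqp.out.ne_zero (by exact_mod_cast hqM)
    have hle : ∀ p : HeightOneSpectrum (𝓞 L), ((q : ℕ) : 𝓞 L) ∈ p.asIdeal → ∀ j,
        p.valuation L (y j) ≤ p.valuation L (y i) := by
      intro p hp j
      by_contra h
      exact hI p hp ⟨i, hi, j, not_le.1 h⟩
    have hyi : y i ≠ 0 := by
      intro h
      have h4 := hle ⟨M, hM.isPrime, hM0⟩ hqM i₀
      rw [h, map_zero, le_zero_iff, map_eq_zero] at h4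
      exact hi₀ h4
    refine (h2 i).2 fun j => ?_
    have h4 : ‖((Algebra.norm ℚ (y j / y i) : ℚ) : ℚ_[q])‖ ≤ 1 := by
      refine norm_int_at _ fun p hp => ?_
      have h5 := hle p hp j
      rw [map_div₀]
      exact div_le_one_of_le₀ h5 zero_le
    have h5 : Algebra.norm ℚ (y j / y i₀) =
        Algebra.norm ℚ (y j / y i) * Algebra.norm ℚ (y i / y i₀) := by
      rw [← map_mul]
      congr 1
      field_simp
    have h6 : ∀ k, ‖φ (t k)‖ ^ m = ‖((Algebra.norm ℚ (y k / y i₀) : ℚ) : ℚ_[q])‖ := by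
      intro k
      rw [hst k, hφc, ← norm_pow]
      push_cast
      rw [norm_mul]
      by_cases hs : s k = true <;> simp [hs]
    have h7 : ‖φ (t j)‖ ^ m ≤ ‖φ (t i)‖ ^ m := by
      rw [h6, h6, h5, Rat.cast_mul, norm_mul]
      exact mul_le_of_le_one_left (norm_nonneg _) h4
    exact (pow_le_pow_iff_left₀ (norm_nonneg _) (norm_nonneg _) (by omega)).1 h7
  refine ⟨fun i => sg s i * η i ^ m, ?_, ⟨?_, ?_⟩, ?_, ?_⟩
  · intro i
    change sg s i * η i ^ m = 0 ∨ sg s i * η i ^ m = 1 ∨ sg s i * η i ^ m = -1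
    rcases hηm i with h | h | h <;> rcases sg_cases s i with h' | h' <;> rw [h, h'] <;> norm_num
  · intro h
    have h4 := congrFun h i₁
    simp only [Pi.zero_apply, mul_eq_zero] at h4
    rcases h4 with h4 | h4
    · rcases sg_cases s i₁ with h' | h' <;> rw [h'] at h4 <;> norm_num at h4
    · exact (h2 i₁).2 hi₁ (pow_eq_zero_iff (by omega : m ≠ 0) |>.1 h4)
  · intro G hG
    have h4 := h3 _ ⟨G, hG, rfl⟩
    have h5 := eval₂_tw (RingHom.id ℚ) s G (fun i => η i ^ m)
    exact h5.symm.trans h4
  · intro i hi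
    refine mul_ne_zero ?_ (pow_ne_zero _ (hIη i hi))
    rcases sg_cases s i with h' | h' <;> rw [h'] <;> norm_num
  · intro i hi
    have h4 : η i = 0 := by
      by_contra h5
      have h6 := (h2 i).1 h5 i₀
      have h7 : t i = 0 := ht0 i hi
      simp only [h7, map_zero, norm_zero] at h6
      have h8 := norm_le_zero_iff.1 h6
      simp only [map_eq_zero] at h8
      exact hi₀ (ht1 i₀ h8)
    change sg s i * η i ^ m = 0
    rw [h4, zero_pow (by omega), mul_zero]

/-- different primes are contained in different prime ideals -/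
lemma prime_unique {L : Type} [Field L] [NumberField L] {p : HeightOneSpectrum (𝓞 L)} {q q' : ℕ}
    (hq : q.Prime) (hq' : q'.Prime) (h : ((q : ℕ) : 𝓞 L) ∈ p.asIdeal)
    (h' : ((q' : ℕ) : 𝓞 L) ∈ p.asIdeal) : q = q' := by
  by_contra hne
  have hc : IsCoprime ((q : ℕ) : ℤ) ((q' : ℕ) : ℤ) :=
    Nat.isCoprime_iff_coprime.2 ((Nat.coprime_primes hq hq').2 hne)
  obtain ⟨a, b, hab⟩ := hc
  have h1 := congrArg (fun t : ℤ => (t : 𝓞 L)) hab
  simp only [Int.cast_add, Int.cast_mul, Int.cast_natCast, Int.cast_one] at h1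
  refine p.isPrime.ne_top ((Ideal.eq_top_iff_one _).2 (h1 ▸ p.asIdeal.add_mem ?_ ?_))
  · exact p.asIdeal.mul_mem_left _ h
  · exact p.asIdeal.mul_mem_left _ h'

/-- the norm of a prime above `q` is at least `q` -/
lemma le_absNorm {L : Type} [Field L] [NumberField L] {p : HeightOneSpectrum (𝓞 L)} {q : ℕ}
    (hq : q.Prime) (h : ((q : ℕ) : 𝓞 L) ∈ p.asIdeal) : q ≤ Ideal.absNorm p.asIdeal := by
  have := p.isPrime
  have := p.isMaximal
  obtain ⟨q', k, hk, hqp, hq', H⟩ := Ideal.exists_prime_and_absNorm_eq_pow p.asIdeal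
  rw [H, prime_unique hq hq' h hqp]
  exact Nat.le_self_pow hk.ne' _

/-- **Main theorem.** Let `X ⊂ ℙ^n` be the set of zeros of an arbitrary set `S` of forms with
rational coefficients, let `X^(e)` be the Zariski closure of the set of coordinatewise products of
`e` points of `X`, and `I` a set of indices.

1. For all `d`, `r`, `B` and all `m` outside a set of natural density zero the following holds.
   Let `L` be a number field of degree `e ≤ d`, and `y` a point of `X` over `L` which is integral
   on the `m`-th root stack along the coordinate hyperplanes.  Then `y` meets `D_I` at `r` or more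
   primes of norm greater than `B`, or there is a point `η` of `X^(e)` outside of `D_I` whose
   coordinates are `0`, `1` or `-1`, with `η_i = 0` if `y_i = 0`.
2. If `X` has no point outside of `D_I` whose coordinates are `0`, `1` or `-1`, then for all `r`,
   `B` and all `m` outside a set of natural density zero all integral points over `ℤ` of this
   stack meet `D_I` at `r` or more primes greater than `B`.
3. If it has such a point, then this point is integral on these stacks and does not meet `D_I` at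
   any prime. -/
theorem result {n : ℕ} (S : Set (MvPolynomial (Fin (n + 1)) ℚ))
    (hS : ∀ F ∈ S, ∃ d, F.IsHomogeneous d) (I : Set (Fin (n + 1))) :
    (∀ d r B : ℕ, HasDensity {m | ∀ (L : Type) [Field L] [NumberField L],
      Module.finrank ℚ L ≤ d → ∀ y : Fin (n + 1) → L, IsPoint S y → IsIntegral m y →
        (∃ P : Finset (HeightOneSpectrum (𝓞 L)), P.card = r ∧
          ∀ p ∈ P, B < Ideal.absNorm p.asIdeal ∧ Meets I y p) ∨
        ∃ η : Fin (n + 1) → ℚ, IsTrivial η ∧ IsPoint (Had S (Module.finrank ℚ L)) η ∧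
          (∀ i ∈ I, η i ≠ 0) ∧ ∀ i, y i = 0 → η i = 0} 1) ∧
    ((¬ ∃ η : Fin (n + 1) → ℚ, IsTrivial η ∧ IsPoint S η ∧ ∀ i ∈ I, η i ≠ 0) →
      ∀ r B : ℕ, HasDensity {m | ∀ y : Fin (n + 1) → ℚ, IsPoint S y → IsIntegral m y →
        ∃ P : Finset (HeightOneSpectrum (𝓞 ℚ)), P.card = r ∧
          ∀ p ∈ P, B < Ideal.absNorm p.asIdeal ∧ Meets I y p} 1) ∧
    (∀ η : Fin (n + 1) → ℚ, IsTrivial η → IsPoint S η → (∀ i ∈ I, η i ≠ 0) →
      ∀ m, IsIntegral m η ∧ ∀ p, ¬ Meets I η p) := by
  classical
  have hcyc := Pool.Agent.H912.AE.cyc_two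
  -- the main part
  have main : ∀ d r B : ℕ, HasDensity {m | ∀ (L : Type) [Field L] [NumberField L],
      Module.finrank ℚ L ≤ d → ∀ y : Fin (n + 1) → L, IsPoint S y → IsIntegral m y →
        (∃ P : Finset (HeightOneSpectrum (𝓞 L)), P.card = r ∧
          ∀ p ∈ P, B < Ideal.absNorm p.asIdeal ∧ Meets I y p) ∨
        ∃ η : Fin (n + 1) → ℚ, IsTrivial η ∧ IsPoint (Had S (Module.finrank ℚ L)) η ∧
          (∀ i ∈ I, η i ≠ 0) ∧ ∀ i, y i = 0 → η i = 0} 1 := by
    intro D r B
    -- the family
    let E := Fin (D + 1) × (Fin (n + 1) → Bool)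
    let ι := Fintype.equivFin E
    let fam : ℕ → Set (MvPolynomial (Fin (n + 1)) ℚ) := fun a =>
      if h : a < Fintype.card E then
        (Pool.Agent.H912.AE.tw (ι.symm ⟨a, h⟩).2) '' (Had S ((ι.symm ⟨a, h⟩).1 : ℕ)) else ∅
    have hfam : ∀ (e : Fin (D + 1)) (s : Fin (n + 1) → Bool),
        fam (ι (e, s) : ℕ) = (Pool.Agent.H912.AE.tw s) '' (Had S (e : ℕ)) := by
      intro e s
      have h1 : ((ι (e, s) : Fin (Fintype.card E)) : ℕ) < Fintype.card E := (ι (e, s)).2
      simp only [fam, h1, dif_pos, Fin.eta, Equiv.symm_apply_apply]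
    have hhom : ∀ a ∈ Finset.range (Fintype.card E), ∀ F ∈ fam a, ∃ d, F.IsHomogeneous d := by
      intro a ha F hF
      have h1 := Finset.mem_range.1 ha
      simp only [fam, h1, dif_pos] at hF
      obtain ⟨G, hG, rfl⟩ := hF
      obtain ⟨d, hd⟩ := hG.1
      exact ⟨1 * d, Pool.Agent.H912.AE.tw_hom _ hd⟩
    set W : Set ℕ := {m | ∃ Q : Finset ℕ, Q.card = r + 1 ∧ ∀ q ∈ Q, B < q ∧
      ∀ a ∈ Finset.range (Fintype.card E), Pool.Agent.H912.AE.WitK 2 (fam a) m q} with hW
    have hWd : HasDensity W 1 := by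
      refine Pool.Agent.H912.AE.full_of fun ε hε => ?_
      obtain ⟨N₀, h⟩ := Pool.Agent.H912.AE.witnessesKF (w := 2) (dvd_refl 2) (K := ℚ)
        (Finset.range (Fintype.card E)) fam hhom (r + 1) B hε
      refine ⟨N₀, fun M hM => le_trans ?_ (h M hM)⟩
      have h1 : (Finset.range M).filter (fun m => m ∉ W) ⊆ (Finset.range M).filter (fun m =>
          ¬ ∃ Q : Finset ℕ, Q.card = r + 1 ∧ ∀ q ∈ Q, B < q ∧
            ∀ a ∈ Finset.range (Fintype.card E), Pool.Agent.H912.AE.WitK 2 (fam a) m q) := by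
        intro m hm
        rw [Finset.mem_filter] at hm ⊢
        exact ⟨hm.1, fun h => hm.2 h⟩
      exact_mod_cast Finset.card_le_card h1
    refine Pool.Agent.H912.AE.density_congr hWd Pool.Agent.H912.AE.density_univ
      fun m hm hm1 => ⟨fun _ => Set.mem_univ _, fun _ => ?_⟩
    intro L _ _ hL y hy hyD
    obtain ⟨Q, hQ, hQ'⟩ := hm
    set e : Fin (D + 1) := ⟨Module.finrank ℚ L, by omega⟩ with he
    have hWit : ∀ q ∈ Q, ∀ s : Fin (n + 1) → Bool, Pool.Agent.H912.AE.WitK 2
        ((Pool.Agent.H912.AE.tw s) '' (Had S (Module.finrank ℚ L))) m q := by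
      intro q hq s
      have h1 := (hQ' q hq).2 (ι (e, s) : ℕ) (Finset.mem_range.2 (ι (e, s)).2)
      rw [hfam] at h1
      exact h1
    by_cases hcase : ∀ q ∈ Q, ∃ p : HeightOneSpectrum (𝓞 L), ((q : ℕ) : 𝓞 L) ∈ p.asIdeal ∧
        Meets I y p
    · left
      have hne : Nonempty (HeightOneSpectrum (𝓞 L)) := by
        obtain ⟨q, hq⟩ := Finset.card_pos.1 (by omega : 0 < Q.card)
        obtain ⟨p, -⟩ := hcase q hq
        exact ⟨p⟩
      choose! f hf using hcase
      have hprime : ∀ q ∈ Q, q.Prime := by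
        intro q hq
        obtain ⟨h1, -⟩ := hWit q hq (fun _ => true)
        exact h1.out
      have hinj : Set.InjOn f (Q : Set ℕ) := by
        intro q hq q' hq' h
        refine prime_unique (p := f q) (hprime q hq) (hprime q' hq') (hf q hq).1 ?_
        rw [h]
        exact (hf q' hq').1
      obtain ⟨P, hP, hPr⟩ := Finset.exists_subset_card_eq (s := Q.image f) (n := r) (by
        rw [Finset.card_image_of_injOn hinj, hQ]
        omega)
      refine ⟨P, hPr, fun p hp => ?_⟩
      obtain ⟨q, hq, rfl⟩ := Finset.mem_image.1 (hP hp)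
      exact ⟨lt_of_lt_of_le (hQ' q hq).1 (le_absNorm (hprime q hq) (hf q hq).1), (hf q hq).2⟩
    · right
      push Not at hcase
      obtain ⟨q, hq, hq'⟩ := hcase
      exact at_prime S I hm1 y hy hyD (hWit q hq) hq'
  refine ⟨main, fun hno r B => ?_, ?_⟩
  · refine Pool.Agent.H912.AE.density_congr (main 1 r B) Pool.Agent.H912.AE.density_univ
      fun m hm hm1 => ⟨fun _ => Set.mem_univ _, fun _ => ?_⟩
    intro y hy hyD
    rcases hm ℚ (by simp) y hy hyD with h | ⟨η, h1, h2, h3, -⟩
    · exact h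
    exfalso
    refine hno ⟨η, h1, ⟨h2.1, fun F hF => h2.2 F ⟨hS F hF, ?_⟩⟩, h3⟩
    intro L _ _ z hz
    have h3 : Module.finrank ℚ ℚ = 1 := Module.finrank_self ℚ
    have h4 : ∀ (e : ℕ) (he : e = 1) (z : Fin e → Fin (n + 1) → L),
        (∀ j, ∀ F ∈ S, MvPolynomial.aeval (z j) F = 0) →
          MvPolynomial.aeval (fun i => ∏ j, z j i) F = 0 := by
      rintro _ rfl z hz
      have h5 : (fun i => ∏ j, z j i) = z 0 := by
        funext i
        simp
      rw [h5]
      exact hz 0 F hF
    exact h4 _ h3 z hz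
  · intro η hη _ hηI m
    refine ⟨fun i j hi hj => ?_, ?_⟩
    · refine ⟨1, ?_⟩
      rw [one_pow]
      have h1 : η i / η j = 1 ∨ η i / η j = -1 := by
        rcases hη i with h | h | h
        · exact absurd h hi
        · rcases hη j with h' | h' | h'
          · exact absurd h' hj
          · left; rw [h, h']; norm_num
          · right; rw [h, h']; norm_num
        · rcases hη j with h' | h' | h'
          · exact absurd h' hj
          · right; rw [h, h']; norm_num
          · left; rw [h, h']; norm_num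
      rcases h1 with h1 | h1
      · rw [h1, FractionalIdeal.spanSingleton_one]
      · rw [h1]
        apply le_antisymm
        · rw [FractionalIdeal.spanSingleton_le_iff_mem, FractionalIdeal.mem_one_iff]
          exact ⟨-1, by simp⟩
        · rw [← FractionalIdeal.spanSingleton_one, FractionalIdeal.spanSingleton_le_iff_mem,
            FractionalIdeal.mem_spanSingleton]
          exact ⟨-1, by simp⟩
    · rintro p ⟨i, hi, j, hij⟩
      have h1 : p.valuation ℚ (η i) = 1 := by
        rcases hη i with h | h | h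
        · exact absurd h (hηI i hi)
        · rw [h, map_one]
        · rw [h, Valuation.map_neg, map_one]
      have h2 : p.valuation ℚ (η j) ≤ 1 := by
        rcases hη j with h | h | h
        · rw [h, map_zero]; exact zero_le
        · rw [h, map_one]
        · rw [h, Valuation.map_neg, map_one]
      rw [h1] at hij
      exact absurd (lt_of_lt_of_le hij h2) (lt_irrefl _)

end Pool.Agent.Results.MP_a41896_nt.RootStackCounting
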