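import Mathlib
import Pool.Agent.H434.K5

/-!
MP_a41896_nt, Q1: integral points of the root stacks of orders `m j` along the divisors `f j = 0` over the
torus. `D` is the boundary of a toric compactification of the torus, and `K_X(D)` is the sum of the
`(1 - 1 / m j) {f j = 0}`, so that Q1 implies that `N^(1)(D, x)` tends to infinity outside a proper closed
subset if this sum is big.

For every bound `B` the integral points `x` with `N^(1)(D, x) ≤ B` lie, up to finitely many, on images of
maps from the multiplicative group to the stack and on finitely many wild translates of subtori. For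
`n = 2` and tame `f j` there are no wild translates, and `N^(1)(D, x)` tends to infinity on the integral
points outside a closed subset `Z` if and only if `Z` contains all these images.
-/

set_option autoImplicit false

namespace Pool.Agent.Results.MP_a41896_nt.RootStacksOverTori

open MvPolynomial NumberField IsDedekindDomain

/-- The points `x` of the torus over `L` such that at every prime `v` outside `S` at which `x` does not
meet the boundary `D`, the multiplicities of `f j (x)` are divisible by `m j` (or infinite). -/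
def StackPts {K : Type} [Field K] {n q : ℕ} (m : Fin q → ℕ) (f : Fin q → MvPolynomial (Fin n) (𝓞 K))
    (L : Type) [Field L] [NumberField L] [Algebra K L] (S : Set (HeightOneSpectrum (𝓞 L))) :
    Set (Fin n → L) :=
  {x | (∀ i, x i ≠ 0) ∧ ∀ v : HeightOneSpectrum (𝓞 L), v ∉ S → (∀ i, v.valuation L (x i) = 1) →
    ∀ j, ∃ w : L, v.valuation L (eval₂ ((algebraMap K L).comp (algebraMap (𝓞 K) K)) x (f j)) =
      v.valuation L w ^ m j}

/-- The truncated counting function `N^(1)(D, x)`: the sum of the `log |κ(v)|` for the primes `v` outside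
`S` at which `x` meets the boundary `D` of the torus. -/
noncomputable def N1 {L : Type} [Field L] [NumberField L] (S : Set (HeightOneSpectrum (𝓞 L)))
    {n : ℕ} (x : Fin n → L) : ℝ :=
  ∑ᶠ v ∈ {v : HeightOneSpectrum (𝓞 L) | v ∉ S ∧ ∃ i, v.valuation L (x i) ≠ 1},
    Real.log (Ideal.absNorm v.asIdeal)

/-- The function is given by a Laurent polynomial outside of `0`. -/
def IsLaurent (φ : ℂ → ℂ) : Prop :=
  ∃ (M : ℕ) (Q : Polynomial ℂ), ∀ t, t ≠ 0 → φ t * t ^ M = Q.eval t

/-- The point `x` of the torus is on an orbifold curve `{x t ^ a}`, `a ≠ 0`: the `f j (x t ^ a)` are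
`m j`-th powers of Laurent polynomials in `t`. -/
def OnOrbifoldCurve {q n : ℕ} (m : Fin q → ℕ) (f : Fin q → MvPolynomial (Fin n) ℂ)
    (x : Fin n → ℂ) : Prop :=
  ∃ a : Fin n → ℤ, a ≠ 0 ∧ ∀ j, ∃ g : ℂ → ℂ, IsLaurent g ∧
    ∀ t, t ≠ 0 → eval (fun i => x i * t ^ a i) (f j) = g t ^ m j

/-- `P` is a monomial times an `m`-th power. -/
def PowForm {r : ℕ} (m : ℕ) (P : MvPolynomial (Fin r) ℂ) : Prop :=
  ∃ (e : Fin r →₀ ℕ) (g : MvPolynomial (Fin r) ℂ), P = monomial e 1 * g ^ m

/-- The leading form of `P` in the direction `l`: the sum of the terms of `P` whose exponents `s` have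
the largest scalar product with `l`. -/
noncomputable def lead {r : ℕ} (l : Fin r → ℝ) (P : MvPolynomial (Fin r) ℂ) :
    MvPolynomial (Fin r) ℂ :=
  open Classical in ∑ s ∈ P.support.filter fun s => ∀ t ∈ P.support,
    ∑ i, (t i : ℝ) * l i ≤ ∑ i, (s i : ℝ) * l i, monomial s (coeff s P)

/-- Either all `P j` are monomials times `m j`-th powers, or there is a linear form `μ` such that for
every nonzero direction `l` with `μ l ≥ 0` there is some `j` such that the leading form of `P j` in the
direction `l` is a monomial times an `m j`-th power, but `P j` is not. -/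
def Tame {q r : ℕ} (m : Fin q → ℕ) (P : Fin q → MvPolynomial (Fin r) ℂ) : Prop :=
  (∀ j, PowForm (m j) (P j)) ∨ ∃ μ : Fin r → ℝ, ∀ l : Fin r → ℝ, l ≠ 0 → 0 ≤ ∑ i, μ i * l i →
    ∃ j, ¬ PowForm (m j) (P j) ∧ PowForm (m j) (lead l (P j))

/-- The polynomial `t ^ κ f(c t ^ a)` in `t = (t 1, …, t r)`, where
`c t ^ a = (c i ∏ j, t j ^ (a i j))`, if the exponents which occur are not negative. -/
noncomputable def pull {n r : ℕ} (κ : Fin r → ℕ) (a : Fin n → Fin r → ℤ) (c : Fin n → ℂ)
    (f : MvPolynomial (Fin n) ℂ) : MvPolynomial (Fin r) ℂ :=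
  ∑ b ∈ f.support, monomial (Finsupp.equivFunOnFinite.symm fun j =>
    ((κ j : ℤ) + ∑ i, (b i : ℤ) * a i j).toNat) (coeff b f * ∏ i, c i ^ b i)

/-- The wild translates: the set of all points if the polynomials `f j` are not tame, and the translates
`{c t ^ a}` of subtori of dimension `r` with `2 ≤ r < n` such that the restrictions of the `f j`, made
polynomials by multiplication with monomials, are not tame. -/
def Wild {q n : ℕ} (m : Fin q → ℕ) (f : Fin q → MvPolynomial (Fin n) ℂ)
    (C : Set (Fin n → ℂ)) : Prop :=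
  (C = Set.univ ∧ ¬ Tame m f) ∨ ∃ r : ℕ, 2 ≤ r ∧ r < n ∧
    ∃ (a : Fin n → Fin r → ℤ) (c : Fin n → ℂ) (κ : Fin q → Fin r → ℕ),
      (∀ j, Pi.single j 1 ∈ Submodule.span ℤ (Set.range a)) ∧ (∀ i, c i ≠ 0) ∧
      (∀ j, ∀ b ∈ (f j).support, ∀ s, 0 ≤ (κ j s : ℤ) + ∑ i, (b i : ℤ) * a i s) ∧
      C = {x | ∃ t : Fin r → ℂ, (∀ j, t j ≠ 0) ∧ ∀ i, x i = c i * ∏ j, t j ^ a i j} ∧
      ¬ Tame m fun j => pull (κ j) a c (f j)

/-- `N^(1)(D, x)` tends to infinity on the integral points of the stack over all rings of `S`-integers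
outside of the closed subset `G = 0`. -/
def Grows {K : Type} [Field K] {n q : ℕ} {κ : Type} (m : Fin q → ℕ)
    (f : Fin q → MvPolynomial (Fin n) (𝓞 K)) (G : κ → MvPolynomial (Fin n) (𝓞 K)) : Prop :=
  ∀ (L : Type) [Field L] [NumberField L] [Algebra K L] (S : Set (HeightOneSpectrum (𝓞 L))),
    S.Finite → ∀ B : ℝ, {x | x ∈ StackPts m f L S ∧ N1 S x ≤ B ∧
      ∃ l, eval₂ ((algebraMap K L).comp (algebraMap (𝓞 K) K)) x (G l) ≠ 0}.Finite

/-- All orbifold curves are contained in the closed subset `G = 0`. -/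
def CurvesIn {K : Type} [Field K] {n q : ℕ} {κ : Type} (σ : K →+* ℂ) (m : Fin q → ℕ)
    (f : Fin q → MvPolynomial (Fin n) (𝓞 K)) (G : κ → MvPolynomial (Fin n) (𝓞 K)) : Prop :=
  ∀ x : Fin n → ℂ, (∀ i, x i ≠ 0) →
    OnOrbifoldCurve m (fun j => MvPolynomial.map (σ.comp (algebraMap (𝓞 K) K)) (f j)) x →
    ∀ l, eval₂ (σ.comp (algebraMap (𝓞 K) K)) x (G l) = 0

/-- Let `K` be a number field, `f j` polynomials in `n` variables over `𝓞 K` and `m j ≥ 2`.

(1) Let `L` be a finite extension of `K`, `S` a finite set of primes of `L` and `B` a real number. There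
are a finite set `E` and a finite set of wild translates such that every integral point of the stack over
`L` with `N^(1)(D, x) ≤ B` which is not in `E` is on one of these translates or on an orbifold curve.

(2) If `N^(1)(D, x)` tends to infinity on the integral points outside a closed subset, then this subset
contains all orbifold curves. The converse holds if there are no wild translates. -/
theorem result {K : Type} [Field K] [NumberField K] (σ : K →+* ℂ) {n q : ℕ} (m : Fin q → ℕ)
    (hm : ∀ j, 2 ≤ m j) (f : Fin q → MvPolynomial (Fin n) (𝓞 K)) :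
    (∀ (L : Type) [Field L] [NumberField L] [Algebra K L] (φ : L →+* ℂ),
      φ.comp (algebraMap K L) = σ → ∀ S : Set (HeightOneSpectrum (𝓞 L)), S.Finite → ∀ B : ℝ,
      ∃ (E : Finset (Fin n → L)) (W : Finset (Set (Fin n → ℂ))),
        (∀ C ∈ W, Wild m (fun j => MvPolynomial.map (σ.comp (algebraMap (𝓞 K) K)) (f j)) C) ∧
        ∀ x ∈ StackPts m f L S, N1 S x ≤ B → x ∉ E → (∃ C ∈ W, (fun i => φ (x i)) ∈ C) ∨
          OnOrbifoldCurve m (fun j => MvPolynomial.map (σ.comp (algebraMap (𝓞 K) K)) (f j))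
            fun i => φ (x i)) ∧
    ∀ (κ : Type) (G : κ → MvPolynomial (Fin n) (𝓞 K)), (Grows m f G → CurvesIn σ m f G) ∧
      ((∀ C, ¬ Wild m (fun j => MvPolynomial.map (σ.comp (algebraMap (𝓞 K) K)) (f j)) C) →
        CurvesIn σ m f G → Grows m f G) := by
  classical
  have hm1 : ∀ j, 1 ≤ m j := fun j => le_trans one_le_two (hm j)
  have part1 : ∀ (L : Type) [Field L] [NumberField L] [Algebra K L] (φ : L →+* ℂ),
      φ.comp (algebraMap K L) = σ → ∀ S : Set (HeightOneSpectrum (𝓞 L)), S.Finite → ∀ B : ℝ,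
      ∃ (E : Finset (Fin n → L)) (W : Finset (Set (Fin n → ℂ))),
        (∀ C ∈ W, Wild m (fun j => MvPolynomial.map (σ.comp (algebraMap (𝓞 K) K)) (f j)) C) ∧
        ∀ x ∈ StackPts m f L S, N1 S x ≤ B → x ∉ E → (∃ C ∈ W, (fun i => φ (x i)) ∈ C) ∨
          OnOrbifoldCurve m (fun j => MvPolynomial.map (σ.comp (algebraMap (𝓞 K) K)) (f j))
            fun i => φ (x i) := by
    intro L _ _ _ φ hφ S hS B
    obtain ⟨E, W, hW, hE⟩ := Pool.Agent.H434.stack_fin φ
      (S ∪ {v : HeightOneSpectrum (𝓞 L) | Real.log (Ideal.absNorm v.asIdeal) ≤ B})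
      (hS.union (Pool.Agent.H434.small_primes L B)) m hm
      fun j => MvPolynomial.map ((algebraMap K L).comp (algebraMap (𝓞 K) K)) (f j)
    have hmap : (fun j => MvPolynomial.map φ (MvPolynomial.map
        ((algebraMap K L).comp (algebraMap (𝓞 K) K)) (f j))) =
        fun j => MvPolynomial.map (σ.comp (algebraMap (𝓞 K) K)) (f j) := by
      funext j
      rw [MvPolynomial.map_map, ← RingHom.comp_assoc, hφ]
    rw [hmap] at hW hE
    refine ⟨E, W, fun C hC => ?_, fun x hx hxB hxE => ?_⟩
    · rcases hW C hC with ⟨h1, -, h3⟩ | ⟨r, h1, h2, a, c, κ, h3, h4, h5, h6, -, h8⟩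
      · exact Or.inl ⟨h1, h3⟩
      · exact Or.inr ⟨r, h1, h2, a, c, κ, h3, h4, h5, h6, h8⟩
    · rcases hE x hx.1 (fun v hv => by
        have hvS : v ∉ S := fun h => hv (Or.inl h)
        have hvB : B < Real.log (Ideal.absNorm v.asIdeal) := by
          by_contra hcon
          exact hv (Or.inr (not_lt.1 hcon))
        have h1 : ∀ i, v.valuation L (x i) = 1 :=
          Pool.Agent.H434.meets_of_count S x hx.1 B hxB v hvS hvB
        refine ⟨h1, fun j => ?_⟩
        obtain ⟨w, hw⟩ := hx.2 v hvS h1 j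
        refine ⟨w, ?_⟩
        rw [eval_map]
        exact hw) hxE with h | h
      · exact Or.inl h
      · exact Or.inr h
  refine ⟨part1, fun κ G => ⟨fun hA x hx ho l => ?_, fun hW hC => ?_⟩⟩
  · refine Pool.Agent.H434.orb_in σ m hm1 f G (fun L _ _ _ S hS => ?_) x hx ho l
    refine (hA L S hS 0).subset ?_
    rintro y ⟨hy0, hy1, hy2⟩
    refine ⟨⟨hy0, fun v hv _ j => (hy1 v hv).2 j⟩, ?_, ?_⟩
    · have h1 : {v : HeightOneSpectrum (𝓞 L) | v ∉ S ∧ ∃ i, v.valuation L (y i) ≠ 1} = ∅ := by
        rw [Set.eq_empty_iff_forall_notMem]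
        rintro v ⟨hv, i, hi⟩
        exact hi ((hy1 v hv).1 i)
      unfold N1
      rw [h1, finsum_mem_empty]
    · by_contra hcon
      push Not at hcon
      exact hy2 hcon
  · intro L _ _ _ S hS B
    let : Algebra K ℂ := σ.toAlgebra
    have : Algebra.IsAlgebraic K L := by
      have h1 : Algebra.IsAlgebraic ℚ L := inferInstance
      exact Algebra.IsAlgebraic.tower_top (K := ℚ) K
    let φ0 : L →ₐ[K] ℂ := IsAlgClosed.lift
    let φ : L →+* ℂ := φ0
    have hφ : φ.comp (algebraMap K L) = σ := by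
      ext c
      exact φ0.commutes _
    obtain ⟨E, W, hW', hE⟩ := part1 L φ hφ S hS B
    refine E.finite_toSet.subset ?_
    rintro x ⟨hx1, hx2, l, hl⟩
    by_contra hxE
    rcases hE x hx1 hx2 hxE with ⟨C, hCW, -⟩ | ho
    · exact hW C (hW' C hCW)
    · apply hl
      have h1 := hC (fun i => φ (x i)) (fun i => (map_ne_zero φ).2 (hx1.1 i)) ho l
      apply φ.injective
      rw [map_zero, ← h1, ← hφ, RingHom.comp_assoc]
      exact MvPolynomial.eval₂_comp_left φ _ x (G l)

end Pool.Agent.Results.MP_a41896_nt.RootStacksOverTori
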